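import Pool.Agent.N112.WM.Stm3
import Pool.Agent.N316.WM.Fin

set_option autoImplicit false
set_option maxHeartbeats 4000000
set_option synthInstance.maxHeartbeats 400000

/-! # WM9: finite groups, arbitrary torsion, modulo the elements with small prime factors -/

namespace Pool.Agent.N738.WM

open Finset
open scoped Pointwise
open Pool.Agent.N112.WM
open Pool.Agent.N316.WM

universe u

/-- splitting a natural number -/
theorem split_nat (P : ℕ → Prop) {n : ℕ} (hn : n ≠ 0) :
    ∃ k l : ℕ, k ≠ 0 ∧ l ≠ 0 ∧ n = k * l ∧ Nat.Coprime k l ∧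
      (∀ p : ℕ, p.Prime → p ∣ k → P p) ∧ ∀ p : ℕ, p.Prime → p ∣ l → ¬ P p := by
  classical
  have key : ∀ (R : ℕ → Prop) [DecidablePred R] (p : ℕ), p.Prime →
      p ∣ ∏ q ∈ n.primeFactors.filter R, q ^ n.factorization q → R p := by
    intro R _ p hp hdvd
    obtain ⟨q, hq, hpq⟩ := (hp.prime.dvd_finsetProd_iff _).1 hdvd
    rw [Finset.mem_filter] at hq
    have h1 := hp.dvd_of_dvd_pow hpq
    rw [(Nat.prime_dvd_prime_iff_eq hp (Nat.prime_of_mem_primeFactors hq.1)).1 h1]
    exact hq.2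
  have h0 : ∀ (R : ℕ → Prop) [DecidablePred R],
      ∏ q ∈ n.primeFactors.filter R, q ^ n.factorization q ≠ 0 := by
    intro R _
    refine Finset.prod_ne_zero_iff.2 fun q hq => pow_ne_zero _ ?_
    exact (Nat.prime_of_mem_primeFactors (Finset.mem_filter.1 hq).1).ne_zero
  refine ⟨∏ q ∈ n.primeFactors.filter P, q ^ n.factorization q,
    ∏ q ∈ n.primeFactors.filter (fun q => ¬ P q), q ^ n.factorization q, h0 _, h0 _, ?_, ?_,
    key P, key (fun q => ¬ P q)⟩
  · rw [Finset.prod_filter_mul_prod_filter_not]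
    exact (Nat.prod_factorization_pow_eq_self hn).symm
  · rw [Nat.coprime_iff_gcd_eq_one]
    by_contra hne
    obtain ⟨p, hp, hdvd⟩ := Nat.exists_prime_and_dvd hne
    exact key (fun q => ¬ P q) p hp (hdvd.trans (Nat.gcd_dvd_right _ _))
      (key P p hp (hdvd.trans (Nat.gcd_dvd_left _ _)))

/-- splitting an element of finite order -/
theorem split_elt (P : ℕ → Prop) {Γ : Type*} [AddCommGroup Γ] {x : Γ} {n : ℕ} (hn : n ≠ 0)
    (hx : n • x = 0) : ∃ s t : ℤ, x = s • x + t • x ∧ s • x ∈ pPart P Γ ∧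
      t • x ∈ pPart (fun p => ¬ P p) Γ := by
  obtain ⟨k, l, hk, hl, hkl, hco, hP, hQ⟩ := split_nat P hn
  have hb := Nat.gcd_eq_gcd_ab k l
  rw [hco.gcd_eq_one] at hb
  refine ⟨l * Nat.gcdB k l, k * Nat.gcdA k l, ?_, ⟨k, hk, hP, ?_⟩, ⟨l, hl, hQ, ?_⟩⟩
  · rw [← add_smul]
    have e : (l * Nat.gcdB k l + k * Nat.gcdA k l : ℤ) = 1 := by
      rw [add_comm]
      exact_mod_cast hb.symm
    rw [e, one_smul]
  · have e : k • ((l * Nat.gcdB k l : ℤ) • x) = Nat.gcdB k l • (n • x) := by
      rw [hkl, ← natCast_zsmul, ← natCast_zsmul, smul_smul, smul_smul]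
      congr 1
      push_cast
      ring
    rw [e, hx, smul_zero]
  · have e : l • ((k * Nat.gcdA k l : ℤ) • x) = Nat.gcdA k l • (n • x) := by
      rw [hkl, ← natCast_zsmul, ← natCast_zsmul, smul_smul, smul_smul]
      congr 1
      push_cast
      ring
    rw [e, hx, smul_zero]

theorem co_of {P : ℕ → Prop} {k l : ℕ} (hP : ∀ p : ℕ, p.Prime → p ∣ k → P p)
    (hQ : ∀ p : ℕ, p.Prime → p ∣ l → ¬ P p) : Nat.Coprime k l := by
  rw [Nat.coprime_iff_gcd_eq_one]
  by_contra hne
  obtain ⟨p, hp, hdvd⟩ := Nat.exists_prime_and_dvd hne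
  exact hQ p hp (hdvd.trans (Nat.gcd_dvd_right _ _)) (hP p hp (hdvd.trans (Nat.gcd_dvd_left _ _)))

/-- characters of small order are trivial at elements of big order -/
theorem char_one {P : ℕ → Prop} {H : Type*} [AddCommGroup H] {χ : AddChar H ℂ} {h : H}
    (hχ : χ ∈ pPart P (AddChar H ℂ)) (hh : h ∈ pPart (fun p => ¬ P p) H) : χ h = 1 := by
  obtain ⟨k, hk, hP, h1⟩ := hχ
  obtain ⟨l, hl, hQ, h2⟩ := hh
  have e1 : (χ h) ^ k = 1 := by
    have h3 := DFunLike.congr_fun h1 h
    rw [AddChar.nsmul_apply, AddChar.zero_apply] at h3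
    exact h3
  have e2 : (χ h) ^ l = 1 := by
    rw [← AddChar.map_nsmul_eq_pow, h2, AddChar.map_zero_eq_one]
  have h5 : χ h ^ (Nat.gcd k l) = 1 := pow_gcd_eq_one.2 ⟨e1, e2⟩
  rwa [(co_of hP hQ).gcd_eq_one, pow_one] at h5

/-- the part with large primes is generated by few elements -/
theorem gen_big {G : Type*} [AddCommGroup G] (p₀ : ℕ) (hp₀ : 2 ≤ p₀) (H2 : AddSubgroup G)
    [Finite H2] : ∃ X : Finset G,
      H2 ⊓ pPart (fun p => ¬ p < p₀) G = AddSubgroup.closure (X : Set G) ∧
      (X.card = 0 ∨ (p₀ : ℝ) ^ (X.card - 1) ≤ Nat.card H2) := by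
  classical
  set Hb : AddSubgroup G := H2 ⊓ pPart (fun p => ¬ p < p₀) G with hHb
  have hle : Hb ≤ H2 := inf_le_left
  have hfin : Finite Hb := Finite.Set.subset (H2 : Set G) hle
  have hp1 : (1 : ℝ) ≤ p₀ := by exact_mod_cast (by omega : 1 ≤ p₀)
  have hprime : ∀ p : ℕ, p.Prime → (p : ℝ) < (p₀ : ℝ) → ∀ x : Hb, p • x = 0 → x = 0 := by
    rintro p hp hlt ⟨x, hx2, l, hl, hQ, hlx⟩ hpx
    have hpx' : p • x = 0 := congrArg Subtype.val hpx
    have hlt' : p < p₀ := by exact_mod_cast hlt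
    apply Subtype.ext
    show x = 0
    have hco : Nat.Coprime p l := co_of (P := fun q => q < p₀) (fun q hq hqp => by
      rw [(Nat.prime_dvd_prime_iff_eq hq hp).1 hqp]; exact hlt') hQ
    have h1 : addOrderOf x ∣ p := addOrderOf_dvd_of_nsmul_eq_zero hpx'
    have h2 : addOrderOf x ∣ l := addOrderOf_dvd_of_nsmul_eq_zero hlx
    have h3 : addOrderOf x ∣ 1 := by
      rw [← hco.gcd_eq_one]
      exact Nat.dvd_gcd h1 h2
    exact AddMonoid.addOrderOf_eq_one_iff.1 (Nat.dvd_one.1 h3)
  obtain ⟨H', S, -, h1, h2, h3⟩ := Pool.Agent.N427.PT.chain hp1 hprime le_rfl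
    (Nat.card (⊤ : AddSubgroup Hb)) ⊤ inferInstance rfl
  have hbot : H' = ⊥ := by
    rw [AddSubgroup.eq_bot_of_card_le H' h1]
  rw [hbot, bot_sup_eq] at h2
  refine ⟨S.image (fun x : Hb => (x : G)), ?_, ?_⟩
  · have h4 := congrArg (AddSubgroup.map Hb.subtype) h2
    rw [← AddMonoidHom.range_eq_map, AddSubgroup.range_subtype, AddMonoidHom.map_closure] at h4
    refine h4.trans ?_
    rw [Finset.coe_image]
    rfl
  · have hc : (S.image (fun x : Hb => (x : G))).card = S.card :=
      Finset.card_image_of_injective _ Subtype.val_injective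
    rw [hc]
    rcases h3 with h3 | h3
    · exact Or.inl h3
    · right
      rw [Nat.cast_one, mul_one] at h3
      refine h3.trans ?_
      have h5 : Nat.card (⊤ : AddSubgroup Hb) = Nat.card Hb := AddSubgroup.card_top
      rw [h5]
      exact_mod_cast Nat.card_le_card_of_injective (AddSubgroup.inclusion hle)
        (AddSubgroup.inclusion_injective hle)

theorem finW (h1 : StmSpec.{u}) (h2 : StmCoset.{u}) (h3 : StmRank.{u}) : StmFinW.{u} := by
  intro H _ _ _ D L M η p₀ hD hDD hL hM hη0 hη1 hp₀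
  classical
  have hL0 : 0 < L := by linarith
  have hp1 : (1 : ℝ) < p₀ := by exact_mod_cast (by omega : 1 < p₀)
  have hlp : 0 < Real.log p₀ := Real.log_pos hp1
  have hD0 : (0 : ℝ) < D.card := by exact_mod_cast hD.card_pos
  obtain ⟨Q, hQne, hQ1, hQ2, hQ3, hQ4⟩ := h1 H D L hD hDD
  have hQ0 : (0 : ℝ) < Q.card := by exact_mod_cast hQne.card_pos
  obtain ⟨B, hBQ, hB, hB1, hB2⟩ := bsg_sum Q hQne L hL (by convert hQ4)
  have hB0 : (0 : ℝ) < B.card := by exact_mod_cast hB.card_pos
  -- the covering of `B`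
  obtain ⟨r, body, θ, H2, T', hr, hbody, hH2fin, hvol, hT', hcov0⟩ :=
    W860.PC.poly_cover hB hB2 hη0 hη1
  have hH2le : (Nat.card H2 : ℝ) ≤
      Real.exp (30000 / η * Real.log (2 * (2 ^ 104 * L ^ 60)) ^ (1 + η)) * B.card := by
    have hfin : {c : Fin r → ℤ | (fun i => (c i : ℝ)) ∈ body}.Finite :=
      Pool.Agent.Y806.DF.lat_finite hbody.2.1.isBounded
    have hlat : 1 ≤ {c : Fin r → ℤ | (fun i => (c i : ℝ)) ∈ body}.ncard := by
      rw [Nat.one_le_iff_ne_zero, ← Nat.pos_iff_ne_zero, Set.ncard_pos hfin]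
      refine ⟨0, ?_⟩
      obtain ⟨hc, -, ⟨y, hy⟩, hs⟩ := hbody
      have hy' : y ∈ body := interior_subset hy
      have h5 := hc hy' (hs y hy') (a := 1 / 2) (b := 1 / 2) (by norm_num) (by norm_num) (by norm_num)
      have e : (fun i => (((0 : Fin r → ℤ) i : ℤ) : ℝ)) = 0 := by funext i; simp
      show (fun i => (((0 : Fin r → ℤ) i : ℤ) : ℝ)) ∈ body
      rw [e]
      simpa using h5
    refine le_trans ?_ hvol
    exact_mod_cast Nat.le_mul_of_pos_left _ hlat
  obtain ⟨X1, hX1, hX1c⟩ := gen_big p₀ hp₀ H2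
  set H2s : AddSubgroup (AddChar H ℂ) := H2 ⊓ pPart (fun p => p < p₀) (AddChar H ℂ) with hH2s
  set X : Finset (AddChar H ℂ) := X1 ∪ Finset.univ.image (fun i : Fin r => θ (Pi.single i 1))
    with hX
  set V : AddSubgroup (AddChar H ℂ) := H2s ⊔ AddSubgroup.closure (X : Set (AddChar H ℂ)) with hV
  have hclX : AddSubgroup.closure (X : Set (AddChar H ℂ)) ≤ V := le_sup_right
  have hX1V : H2 ⊓ pPart (fun p => ¬ p < p₀) (AddChar H ℂ) ≤ V := by
    rw [hX1]
    refine le_trans (AddSubgroup.closure_mono ?_) hclX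
    rw [hX, Finset.coe_union]
    exact Set.subset_union_left
  have hHfin : Finite (AddChar H ℂ) := inferInstance
  have hH2V : H2 ≤ V := by
    intro χ hχ
    have hn : addOrderOf χ ≠ 0 := (addOrderOf_pos χ).ne'
    obtain ⟨s, t, e, h5, h6⟩ := split_elt (fun p => p < p₀) hn (addOrderOf_nsmul_eq_zero χ)
    rw [e]
    refine add_mem ?_ ?_
    · exact (le_sup_left : H2s ≤ V) ⟨AddSubgroup.zsmul_mem _ hχ s, h5⟩
    · exact hX1V ⟨AddSubgroup.zsmul_mem _ hχ t, h6⟩
  have hθV : ∀ v : Fin r → ℤ, θ v ∈ V := by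
    intro v
    have hθ : θ v = ∑ i, v i • θ (Pi.single i 1) := by
      conv_lhs => rw [← Finset.univ_sum_single v]
      rw [map_sum]
      refine Finset.sum_congr rfl fun i _ => ?_
      rw [← map_zsmul]
      congr 1
      funext k
      by_cases hk : k = i
      · subst hk; simp
      · simp [hk]
    rw [hθ]
    refine V.sum_mem fun i _ => AddSubgroup.zsmul_mem _ (hclX (AddSubgroup.subset_closure ?_)) _
    rw [Finset.mem_coe, hX, Finset.mem_union]
    exact Or.inr (Finset.mem_image.2 ⟨i, Finset.mem_univ _, rfl⟩)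
  have hcov : ∀ χ ∈ B, ∃ t ∈ T', χ - t ∈ V := by
    intro a ha
    obtain ⟨t, ht, v, hv, h, hh, e⟩ := hcov0 a ha
    refine ⟨t, ht, ?_⟩
    have e1 : a - t = h + θ v := by rw [e]; abel
    rw [e1]
    exact add_mem (hH2V hh) (hθV v)
  obtain ⟨χ₀, hχ₀, Q', hQ'B, hQ'1, hQ'2⟩ := pigeon B T' V hB hcov
  obtain ⟨hcardV, hcos⟩ := h2 H V
  obtain ⟨E, hED, hEne, hE1, hE2⟩ := hcos D χ₀ Q' hD hQ'1
  have hE0 : (0 : ℝ) < E.card := by exact_mod_cast hEne.card_pos
  -- the sets
  set F : Finset H := (Set.toFinite ((perp V : AddSubgroup H) : Set H)).toFinset with hF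
  have hFmem : ∀ x, x ∈ F ↔ x ∈ perp V := by
    intro x
    rw [hF, Set.Finite.mem_toFinset]
    rfl
  have hFcoe : (F : Set H) = ((perp V : AddSubgroup H) : Set H) := by
    rw [hF, Set.Finite.coe_toFinset]
  have hFcard : Nat.card (perp V) = F.card := by
    rw [← Set.ncard_coe_finset F, hFcoe]
    rfl
  have hVc0 : (0 : ℝ) < Nat.card V := by
    have : Finite V := inferInstance
    exact_mod_cast Nat.card_pos
  -- the size of `E`
  have hq1 : (Q'.card : ℝ) * D.card ≤ 2 * L * Nat.card V * E.card := by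
    have h5 : (Q'.card : ℝ) * (D.card : ℝ) ^ 2 ≤ 2 * L * ∑ χ ∈ Q', ‖ft D χ‖ ^ 2 := by
      rw [Finset.mul_sum]
      have h6 : ∑ χ ∈ Q', (D.card : ℝ) ^ 2 ≤ ∑ χ ∈ Q', 2 * L * ‖ft D χ‖ ^ 2 :=
        Finset.sum_le_sum fun χ hχ => hQ1 χ (hBQ (hQ'B hχ))
      rwa [Finset.sum_const, nsmul_eq_mul] at h6
    have h6 : (Q'.card : ℝ) * (D.card : ℝ) ^ 2 ≤ 2 * L * (Nat.card V * (D.card * E.card : ℝ)) :=
      h5.trans (by gcongr)
    have h7 : (Q'.card * D.card : ℝ) * D.card ≤ (2 * L * Nat.card V * E.card) * D.card := by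
      calc (Q'.card * D.card : ℝ) * D.card = (Q'.card : ℝ) * (D.card : ℝ) ^ 2 := by ring
        _ ≤ _ := h6
        _ = _ := by ring
    exact le_of_mul_le_mul_right h7 hD0
  have hT'0 : (0 : ℝ) ≤ T'.card := by positivity
  have hq2 : (B.card : ℝ) ≤ T'.card * Q'.card := by exact_mod_cast hQ'2
  have hcardV' : (Nat.card V : ℝ) * F.card = Nat.card H := by
    rw [← hFcard]
    exact_mod_cast hcardV
  have hFE : (F.card : ℝ) ≤ 256 * L ^ 5 * T'.card * E.card := by
    have h5 : (Nat.card V : ℝ) * F.card ≤ Nat.card V * (256 * L ^ 5 * T'.card * E.card) := by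
      rw [hcardV']
      calc (Nat.card H : ℝ) ≤ 2 * L * D.card * Q.card := hQ2
        _ ≤ 2 * L * D.card * (64 * L ^ 3 * B.card) := by gcongr
        _ ≤ 2 * L * D.card * (64 * L ^ 3 * (T'.card * Q'.card)) := by gcongr
        _ = 128 * L ^ 4 * T'.card * (Q'.card * D.card) := by ring
        _ ≤ 128 * L ^ 4 * T'.card * (2 * L * Nat.card V * E.card) := by gcongr
        _ = _ := by ring
    exact le_of_mul_le_mul_left h5 hVc0
  -- the Ruzsa triangle inequality
  have hR : ((D + F).card : ℝ) ≤ 256 * L ^ 6 * T'.card * D.card := by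
    have h5 := Finset.ruzsa_triangle_inequality_add_add_add D E F
    have h6 : (D + E).card ≤ (D + D).card := Finset.card_le_card (Finset.add_subset_add_left hED)
    have h7 : (E + F).card ≤ F.card := by
      obtain ⟨e0, he0⟩ := hEne
      have : E + F ⊆ F.image (fun x => e0 + x) := by
        intro x hx
        obtain ⟨e, he, f, hf, rfl⟩ := Finset.mem_add.1 hx
        refine Finset.mem_image.2 ⟨(e - e0) + f, ?_, by abel⟩
        rw [hFmem] at hf ⊢
        exact add_mem (hE1 e he e0 he0) hf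
      exact (Finset.card_le_card this).trans Finset.card_image_le
    have h8 : ((D + F).card : ℝ) * E.card ≤ (D + D).card * F.card := by
      have : (D + F).card * E.card ≤ (D + D).card * F.card := by
        refine h5.trans (Nat.mul_le_mul h6 h7)
      exact_mod_cast this
    have h9 : ((D + F).card : ℝ) * E.card ≤ (256 * L ^ 6 * T'.card * D.card) * E.card := by
      calc ((D + F).card : ℝ) * E.card ≤ (D + D).card * F.card := h8
        _ ≤ (L * D.card) * (256 * L ^ 5 * T'.card * E.card) := by gcongr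
        _ = _ := by ring
    exact le_of_mul_le_mul_right h9 hE0
  -- the generators
  set W1 : AddSubgroup H := perp H2s with hW1
  let res : AddChar H ℂ → AddChar W1 ℂ := fun χ => χ.compAddMonoidHom W1.subtype
  obtain ⟨S, hS1, hS2⟩ := (h3 W1).1 (X.image res)
  have hperp : ∀ w : W1, w ∈ perp (AddSubgroup.closure ((X.image res : Finset _) : Set (AddChar W1 ℂ)))
      → (w : H) ∈ perp V := by
    intro w hw χ hχ
    rw [hV, AddSubgroup.mem_sup] at hχ
    obtain ⟨a, ha, c, hc, rfl⟩ := hχ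
    rw [AddChar.add_apply, w.2 a ha, one_mul]
    have hc' : ∀ c ∈ AddSubgroup.closure (X : Set (AddChar H ℂ)), c (w : H) = 1 := by
      intro c hc
      induction hc using AddSubgroup.closure_induction with
      | mem c hc =>
        have h5 := hw (res c) (AddSubgroup.subset_closure (by
          rw [Finset.coe_image]
          exact ⟨c, hc, rfl⟩))
        exact h5
      | zero => exact AddChar.zero_apply _
      | add a b _ _ ha hb => rw [AddChar.add_apply, ha, hb, one_mul]
      | neg a _ ha => rw [AddChar.neg_apply', ha, inv_one]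
    exact hc' c hc
  have hScard : S.card ≤ X1.card + r := by
    refine hS1.trans (Finset.card_image_le.trans ((Finset.card_union_le _ _).trans ?_))
    have h7 := Finset.card_image_le (s := (Finset.univ : Finset (Fin r)))
      (f := fun i : Fin r => θ (Pi.single i 1))
    rw [Finset.card_univ, Fintype.card_fin] at h7
    omega
  refine ⟨perp V, S.image (fun x : W1 => (x : H)), ?_, ?_, ?_⟩
  · rw [← hFcoe, ← Finset.coe_add, Set.ncard_coe_finset]
    refine hR.trans ?_
    exact mul_le_mul_of_nonneg_right (num1 L η T'.card hL hη0 hη1 hT'0 hT') hD0.le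
  · have hS3 : ((S.image (fun x : W1 => (x : H))).card : ℝ) ≤ X1.card + r := by
      exact_mod_cast Finset.card_image_le.trans hScard
    have hQM : (Q.card : ℝ) ≤ 2 * L * M := by
      have h6 : (Q.card : ℝ) * D.card ≤ (2 * L * M) * D.card := by
        calc (Q.card : ℝ) * D.card ≤ 2 * L * Nat.card H := hQ3
          _ ≤ 2 * L * (M * D.card) := by gcongr
          _ = _ := by ring
      exact le_of_mul_le_mul_right h6 hD0
    have hQone : (1 : ℝ) ≤ Q.card := by exact_mod_cast hQne.card_pos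
    have hBM : (B.card : ℝ) ≤ 2 * L * M := by
      have h11 : (B.card : ℝ) ≤ Q.card := by exact_mod_cast Finset.card_le_card hBQ
      linarith
    have hLM : 0 ≤ Real.log (2 * L * M) := Real.log_nonneg (by linarith)
    set κ2 := Real.log (2 * (2 ^ 104 * L ^ 60)) with hκ2
    have hκ20 : 0 ≤ κ2 := by
      apply Real.log_nonneg
      have : (1 : ℝ) ≤ L ^ 60 := one_le_pow₀ hL
      linarith
    have hpw : 0 ≤ κ2 ^ (1 + η) := Real.rpow_nonneg hκ20 _
    have h6 : (X1.card : ℝ) ≤ 1 + 30000 / η * (κ2 ^ (1 + η) / Real.log p₀) +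
        Real.log (2 * L * M) / Real.log p₀ := by
      have h7 : 0 ≤ Real.log (2 * L * M) / Real.log p₀ := div_nonneg hLM hlp.le
      have h8 : 0 ≤ 30000 / η * (κ2 ^ (1 + η) / Real.log p₀) := by positivity
      rcases hX1c with h9 | h9
      · rw [h9]
        push_cast
        linarith
      · have h10 : (p₀ : ℝ) ^ (X1.card - 1) ≤ Real.exp (30000 / η * κ2 ^ (1 + η)) * (2 * L * M) :=
          h9.trans (hH2le.trans (by gcongr))
        have hLM0 : 0 < 2 * L * M := by linarith
        have h11 : ((X1.card - 1 : ℕ) : ℝ) * Real.log p₀ ≤ 30000 / η * κ2 ^ (1 + η) +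
            Real.log (2 * L * M) := by
          have := Real.log_le_log (by positivity) h10
          rwa [Real.log_pow, Real.log_mul (Real.exp_pos _).ne' hLM0.ne', Real.log_exp] at this
        have h12 : ((X1.card - 1 : ℕ) : ℝ) ≤ 30000 / η * (κ2 ^ (1 + η) / Real.log p₀) +
            Real.log (2 * L * M) / Real.log p₀ := by
          rw [← mul_div_assoc, ← add_div, le_div_iff₀ hlp]
          exact h11
        have h13 : (X1.card : ℝ) ≤ ((X1.card - 1 : ℕ) : ℝ) + 1 := by
          have : X1.card ≤ (X1.card - 1) + 1 := by omega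
          exact_mod_cast this
        linarith
    have h7 := num2 L η (Real.log p₀) (X1.card + r - Real.log (2 * L * M) / Real.log p₀) hL hη0 hη1
      hlp (by
        rw [← hκ2, mul_add]
        linarith)
    linarith
  · intro x
    have hn : addOrderOf x ≠ 0 := (addOrderOf_pos x).ne'
    obtain ⟨s, t, e, h5, h6⟩ := split_elt (fun p => p < p₀) hn (addOrderOf_nsmul_eq_zero x)
    refine ⟨s • x, h5, ?_⟩
    have e1 : x - s • x = t • x := sub_eq_of_eq_add' e
    rw [e1]
    have hW : t • x ∈ W1 := fun χ hχ => char_one (P := fun p => p < p₀) hχ.2 h6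
    have h7 : (⟨t • x, hW⟩ : W1) ∈ perp (AddSubgroup.closure ((X.image res : Finset _) :
        Set (AddChar W1 ℂ))) ⊔ AddSubgroup.closure (S : Set W1) := by
      rw [hS2]
      exact AddSubgroup.mem_top _
    rw [AddSubgroup.mem_sup] at h7
    obtain ⟨a, ha, c, hc, hac⟩ := h7
    have h8 : t • x = (a : H) + (c : H) := by
      have := congrArg Subtype.val hac
      exact this.symm
    rw [h8]
    refine add_mem ((le_sup_left : perp V ≤ _) (hperp a ha)) ?_
    refine (le_sup_right : AddSubgroup.closure _ ≤ perp V ⊔ AddSubgroup.closure _) ?_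
    have h9 : (c : H) ∈ (AddSubgroup.closure (S : Set W1)).map W1.subtype := ⟨c, hc, rfl⟩
    rw [AddMonoidHom.map_closure] at h9
    rw [Finset.coe_image]
    exact h9

end Pool.Agent.N738.WM
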